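import Pool.Agent.W606.PS.Stm

/-!
Project PS (owner helper606): separators of small diameter when there are few vertices,
`S_LEV → S_DIAM → S_SEPN`.
-/

set_option autoImplicit false

open Set Relation

namespace Pool.Agent.W565.PS

open Pool.Agent.W606.PS

theorem main (h1 : S_LEV) (h2 : S_DIAM) : S_SEPN := by
  intro A W _ _ G hrr hcon hnb k hk hcard Om x hO hx
  classical
  obtain ⟨B, hB⟩ := h1 (A ⊕ W) G hcon hnb Om x (7 * k + 1) hO hx
  -- the `A`-vertices of the separator at level `2 k + 1 + i`
  let S : ℕ → Finset A := fun i =>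
    Finset.univ.filter (fun a => Sum.inl a ∈ Nb G (B (2 * k + 1 + i)))
  have hlev : ∀ i ∈ Finset.range k, 2 * k + 1 + i ≤ 7 * k + 1 := by
    intro i hi
    rw [Finset.mem_range] at hi
    omega
  have hdis : (Finset.range k : Set ℕ).PairwiseDisjoint S := by
    intro i hi j hj hij
    rw [Function.onFun, Finset.disjoint_left]
    intro a ha ha'
    simp only [S, Finset.mem_filter, Finset.mem_univ, true_and] at ha ha'
    obtain ⟨-, -, -, -, hi5, -⟩ := hB (2 * k + 1 + i) (hlev i (by simpa using hi))
    obtain ⟨-, -, -, -, hj5, -⟩ := hB (2 * k + 1 + j) (hlev j (by simpa using hj))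
    obtain ⟨p1, z1, hz1, q1⟩ := hi5 _ ha
    obtain ⟨p2, z2, hz2, q2⟩ := hj5 _ ha'
    have e1 := p1 z2 hz2
    have e2 := p2 z1 hz1
    omega
  have hex : ∃ i ∈ Finset.range k, (S i).card ≤ k := by
    by_contra hh
    push Not at hh
    have hsum : (∑ i ∈ Finset.range k, (S i).card) ≤ Fintype.card A := by
      rw [← Finset.card_biUnion hdis]
      exact Finset.card_le_univ _
    have hge : k * (k + 1) ≤ ∑ i ∈ Finset.range k, (S i).card := by
      have : ∑ _i ∈ Finset.range k, (k + 1) ≤ ∑ i ∈ Finset.range k, (S i).card :=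
        Finset.sum_le_sum (fun i hi => hh i hi)
      simpa using this
    nlinarith
  obtain ⟨i, hi, hSi⟩ := hex
  have hj7 := hlev i hi
  have hik : i < k := Finset.mem_range.mp hi
  obtain ⟨b1, b2, b3, b4, b5, -⟩ := hB (2 * k + 1 + i) hj7
  refine ⟨B (2 * k + 1 + i), b1, ?_, ?_, ?_⟩
  · intro v hv
    by_contra hvO
    have := b2.1 hv v hvO
    rw [SimpleGraph.dist_self] at this
    omega
  · intro y hy
    obtain ⟨p, z, hz, q⟩ := b5 y hy
    refine ⟨?_, fun z' hz' => ?_, z, hz, ?_⟩
    · by_contra hyO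
      have := p y hyO
      rw [SimpleGraph.dist_self] at this
      omega
    · have := p z' hz'
      omega
    · omega
  · refine h2 A W G hrr (Nb G (B (2 * k + 1 + i))) k b4 ?_
    have : {a : A | Sum.inl a ∈ Nb G (B (2 * k + 1 + i))} = ((S i : Finset A) : Set A) := by
      ext a
      simp [S]
    rw [this, Set.ncard_coe_finset]
    exact hSi

end Pool.Agent.W565.PS
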